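import Pool.Agent.H69.GB.HYA
import Pool.Agent.H34.GZZ.Targets

/-!
Row HYZ of the board gzz: one value on the critical line against short sums, without weight and
without any condition at infinity.
-/

set_option autoImplicit false

namespace Pool.Agent.H84.GZZ

open MeasureTheory Pool.Agent.H34.GM Pool.Agent.H34.GZ Pool.Agent.H34.GU Pool.Agent.H34.GA
open Pool.Agent.H23.GB Pool.Agent.H69.GA Pool.Agent.H69.GB Pool.Agent.H34.GZZ

lemma sx_cont (lam : ℕ → ℂ) (X : ℕ) :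
    Continuous fun u : ℝ => SX lam X (1 / 2 + ((u : ℝ) : ℂ) * Complex.I) := by
  unfold SX
  refine continuous_finsetSum _ fun n hn => ?_
  have h1 : (n : ℂ) ≠ 0 := by
    have := (Finset.mem_Icc.1 hn).1
    exact_mod_cast (by omega : n ≠ 0)
  refine continuous_const.mul (Continuous.const_cpow ?_ (Or.inl h1))
  exact (continuous_const.add (Complex.continuous_ofReal.mul continuous_const)).neg

lemma sx_bd (lam : ℕ → ℂ) (X : ℕ) (u : ℝ) :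
    ‖SX lam X (1 / 2 + ((u : ℝ) : ℂ) * Complex.I)‖ ≤ ∑ n ∈ Finset.Icc 1 X, ‖lam n‖ := by
  unfold SX
  refine (norm_sum_le _ _).trans (Finset.sum_le_sum fun n hn => ?_)
  have h1 : 1 ≤ n := (Finset.mem_Icc.1 hn).1
  rw [norm_mul, Complex.norm_natCast_cpow_of_pos (by omega)]
  have h2 : (-(1 / 2 + ((u : ℝ) : ℂ) * Complex.I)).re = -(1 / 2) := by
    simp
  rw [h2]
  have h3 : (n : ℝ) ^ (-(1 / 2) : ℝ) ≤ 1 :=
    Real.rpow_le_one_of_one_le_of_nonpos (by exact_mod_cast h1) (by norm_num)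
  exact mul_le_of_le_one_right (norm_nonneg _) h3

/-- integrability against the kernel -/
lemma ker_int (g : ℝ → ℝ) (hg : Continuous g) (B : ℝ) (hB : ∀ u, |g u| ≤ B) (t : ℝ) :
    Integrable fun τ : ℝ => ((1 + |τ|) ^ 4)⁻¹ * g (t + τ) := by
  have h1 : Integrable (fun τ : ℝ => (1 + ‖τ‖) ^ (-(4 : ℝ))) := integrable_one_add_norm (by simp)
  have h0 : ∀ τ : ℝ, (1 + |τ|) ^ 4 ≠ 0 := fun τ => by positivity
  refine (h1.mul_const B).mono' ?_ ?_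
  · refine Continuous.aestronglyMeasurable ?_
    refine Continuous.mul (Continuous.inv₀ (by fun_prop) h0) (by fun_prop)
  · filter_upwards with τ
    have h2 : (1 + ‖τ‖) ^ (-(4 : ℝ)) = ((1 + |τ|) ^ 4)⁻¹ := by
      rw [Real.norm_eq_abs, Real.rpow_neg (by positivity)]
      norm_cast
    rw [h2, norm_mul, Real.norm_of_nonneg (by positivity)]
    exact mul_le_mul_of_nonneg_left (by rw [Real.norm_eq_abs]; exact hB _) (by positivity)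

/-- the centre of the kernel may be moved by `1` -/
lemma ker_shift (g : ℝ → ℝ) (hg : Continuous g) (hg0 : ∀ u, 0 ≤ g u) (B : ℝ)
    (hB : ∀ u, |g u| ≤ B) (t t' : ℝ) (h : |t' - t| ≤ 1) :
    ∫ τ : ℝ, ((1 + |τ|) ^ 4)⁻¹ * g (t' + τ) ≤ 16 * ∫ τ : ℝ, ((1 + |τ|) ^ 4)⁻¹ * g (t + τ) := by
  have h1 : ∫ τ : ℝ, ((1 + |τ|) ^ 4)⁻¹ * g (t' + τ) =
      ∫ τ : ℝ, ((1 + |τ - (t' - t)|) ^ 4)⁻¹ * g (t + τ) := by
    rw [← integral_sub_right_eq_self (fun τ : ℝ => ((1 + |τ|) ^ 4)⁻¹ * g (t' + τ)) (t' - t)]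
    apply integral_congr_ae
    filter_upwards with τ
    have h2 : t' + (τ - (t' - t)) = t + τ := by ring
    rw [h2]
  rw [h1, ← integral_const_mul]
  have hi := ker_int g hg B hB t
  refine integral_mono_of_nonneg ?_ (hi.const_mul 16) ?_
  · filter_upwards with τ
    exact mul_nonneg (by positivity) (hg0 _)
  · filter_upwards with τ
    have h2 : 1 + |τ| ≤ 2 * (1 + |τ - (t' - t)|) := by
      have h3 : |τ| ≤ |τ - (t' - t)| + |t' - t| := by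
        have := abs_add_le (τ - (t' - t)) (t' - t)
        rwa [sub_add_cancel] at this
      have := abs_nonneg (τ - (t' - t))
      linarith
    have h4 : ((1 + |τ - (t' - t)|) ^ 4)⁻¹ ≤ 16 * ((1 + |τ|) ^ 4)⁻¹ := by
      have h5 : (1 + |τ|) ^ 4 ≤ 16 * (1 + |τ - (t' - t)|) ^ 4 := by
        calc (1 + |τ|) ^ 4 ≤ (2 * (1 + |τ - (t' - t)|)) ^ 4 :=
              pow_le_pow_left₀ (by positivity) h2 4
          _ = 16 * (1 + |τ - (t' - t)|) ^ 4 := by ring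
      rw [inv_le_iff_one_le_mul₀ (by positivity), mul_comm 16, mul_assoc,
        inv_mul_eq_div, le_div_iff₀ (by positivity), one_mul]
      exact h5
    show ((1 + |τ - (t' - t)|) ^ 4)⁻¹ * g (t + τ) ≤ 16 * (((1 + |τ|) ^ 4)⁻¹ * g (t + τ))
    rw [← mul_assoc]
    exact mul_le_mul_of_nonneg_right h4 (hg0 _)

lemma max_one {n : ℕ} (z : Fin n → ℂ) (s : ℂ) : 1 ≤ ∏ i, max 1 ‖s - z i‖ := by
  calc (1 : ℝ) = ∏ _i : Fin n, (1 : ℝ) := by simp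
    _ ≤ _ := Finset.prod_le_prod (fun _ _ => zero_le_one) fun i _ => le_max_left _ _

/-- the Mellin transform on the critical line, seen from the point `s` -/
lemma mel_far {Z : ℂ → ℂ} {n n0 : ℕ} {z : Fin n → ℂ} {s s0 : ℂ} {R Cz CZ : ℝ} (hn : n ≤ n0)
    (hR : 1 ≤ R) (hCz : 0 ≤ Cz) (hs : ‖s - s0‖ ≤ 1) (hs0 : s0.re = 1 / 2)
    (hup : ∀ s, ‖s - s0‖ ≤ R → ‖Z s‖ ≤ Cz * (R ^ n)⁻¹ * ∏ i, ‖s - z i‖)
    (hcrit : ∀ u : ℝ, ‖Z (1 / 2 + u * Complex.I)‖ ≤ CZ) (u : ℝ) :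
    ‖Z (1 / 2 + u * Complex.I)‖ ≤ ((Cz * 2 ^ n0 + CZ) * ((R ^ n)⁻¹ * ∏ i, max 1 ‖s - z i‖)) *
      (1 + |u - s.im|) ^ n0 := by
  have hCZ : 0 ≤ CZ := (norm_nonneg _).trans (hcrit 0)
  have hR0 : 0 < R := by linarith
  have hRn : 0 < (R ^ n)⁻¹ := by positivity
  have hmax1 : 1 ≤ ∏ i, max 1 ‖s - z i‖ := max_one z s
  have hmax0 : 0 < ∏ i, max 1 ‖s - z i‖ := by linarith
  have hy1 : 1 ≤ 1 + |u - s.im| := by
    have := abs_nonneg (u - s.im)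
    linarith
  have hyn : (1 + |u - s.im|) ^ n ≤ (1 + |u - s.im|) ^ n0 := pow_le_pow_right₀ hy1 hn
  have hre : |(1 : ℝ) / 2 - s.re| ≤ 1 := by
    have h1 := Complex.abs_re_le_norm (s - s0)
    rw [Complex.sub_re, hs0] at h1
    rw [abs_sub_comm]
    exact h1.trans hs
  have him : |s.im - s0.im| ≤ 1 := by
    have h1 := Complex.abs_im_le_norm (s - s0)
    rw [Complex.sub_im] at h1
    exact h1.trans hs
  have hur : (1 / 2 + (u : ℂ) * Complex.I).re = 1 / 2 := by simp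
  have hui : (1 / 2 + (u : ℂ) * Complex.I).im = u := by simp
  by_cases hc : ‖(1 / 2 + (u : ℂ) * Complex.I) - s0‖ ≤ R
  · have h1 := hup _ hc
    have h2 : ∏ i, ‖(1 / 2 + (u : ℂ) * Complex.I) - z i‖ ≤
        ∏ i, (2 * (1 + |u - s.im|) * max 1 ‖s - z i‖) := by
      refine Finset.prod_le_prod (fun _ _ => norm_nonneg _) fun i _ => ?_
      have h3 : ‖(1 / 2 + (u : ℂ) * Complex.I) - s‖ ≤ 1 + |u - s.im| := by
        refine (Complex.norm_le_abs_re_add_abs_im _).trans ?_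
        rw [Complex.sub_re, Complex.sub_im, hur, hui]
        linarith
      have h4 : ‖(1 / 2 + (u : ℂ) * Complex.I) - z i‖ ≤
          ‖(1 / 2 + (u : ℂ) * Complex.I) - s‖ + ‖s - z i‖ := by
        have := norm_add_le ((1 / 2 + (u : ℂ) * Complex.I) - s) (s - z i)
        rwa [sub_add_sub_cancel] at this
      have h5 : ‖s - z i‖ ≤ max 1 ‖s - z i‖ := le_max_right _ _
      have h6 : (1 : ℝ) ≤ max 1 ‖s - z i‖ := le_max_left _ _
      nlinarith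
    rw [Finset.prod_mul_distrib, Finset.prod_const, Finset.card_univ, Fintype.card_fin,
      mul_pow] at h2
    have h7 : (2 : ℝ) ^ n ≤ 2 ^ n0 := pow_le_pow_right₀ (by norm_num) hn
    calc ‖Z (1 / 2 + u * Complex.I)‖
        ≤ Cz * (R ^ n)⁻¹ * (2 ^ n * (1 + |u - s.im|) ^ n * ∏ i, max 1 ‖s - z i‖) :=
          h1.trans (mul_le_mul_of_nonneg_left h2 (by positivity))
      _ ≤ Cz * (R ^ n)⁻¹ * (2 ^ n0 * (1 + |u - s.im|) ^ n0 * ∏ i, max 1 ‖s - z i‖) := by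
          refine mul_le_mul_of_nonneg_left (mul_le_mul_of_nonneg_right ?_ hmax0.le) (by positivity)
          exact mul_le_mul h7 hyn (by positivity) (by positivity)
      _ = (Cz * 2 ^ n0) * ((R ^ n)⁻¹ * ∏ i, max 1 ‖s - z i‖) * (1 + |u - s.im|) ^ n0 := by ring
      _ ≤ _ := by
          refine mul_le_mul_of_nonneg_right (mul_le_mul_of_nonneg_right ?_ ?_) ?_
          · linarith
          · positivity
          · positivity
  · push Not at hc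
    have h1 : R ≤ 1 + |u - s.im| := by
      have h2 := Complex.norm_le_abs_re_add_abs_im ((1 / 2 + (u : ℂ) * Complex.I) - s0)
      rw [Complex.sub_re, Complex.sub_im, hur, hui, hs0, sub_self, abs_zero, zero_add] at h2
      have h3 : |u - s0.im| ≤ |u - s.im| + |s.im - s0.im| := by
        have := abs_add_le (u - s.im) (s.im - s0.im)
        rwa [sub_add_sub_cancel] at this
      linarith
    have h2 : R ^ n ≤ (1 + |u - s.im|) ^ n0 := (pow_le_pow_left₀ hR0.le h1 n).trans hyn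
    have h3 : (1 : ℝ) ≤ (R ^ n)⁻¹ * (1 + |u - s.im|) ^ n0 := by
      have h9 : (R ^ n)⁻¹ * R ^ n = 1 := inv_mul_cancel₀ (by positivity)
      exact h9.symm.le.trans (mul_le_mul_of_nonneg_left h2 hRn.le)
    have h4 : (1 : ℝ) ≤ (R ^ n)⁻¹ * (∏ i, max 1 ‖s - z i‖) * (1 + |u - s.im|) ^ n0 := by
      have h5 : (R ^ n)⁻¹ * (1 + |u - s.im|) ^ n0 * 1 ≤
          (R ^ n)⁻¹ * (1 + |u - s.im|) ^ n0 * ∏ i, max 1 ‖s - z i‖ :=
        mul_le_mul_of_nonneg_left hmax1 (by positivity)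
      calc (1 : ℝ) ≤ (R ^ n)⁻¹ * (1 + |u - s.im|) ^ n0 * 1 := by rw [mul_one]; exact h3
        _ ≤ _ := h5
        _ = _ := by ring
    calc ‖Z (1 / 2 + u * Complex.I)‖ ≤ CZ * 1 := by rw [mul_one]; exact hcrit u
      _ ≤ CZ * ((R ^ n)⁻¹ * (∏ i, max 1 ‖s - z i‖) * (1 + |u - s.im|) ^ n0) :=
          mul_le_mul_of_nonneg_left h4 hCZ
      _ = CZ * ((R ^ n)⁻¹ * ∏ i, max 1 ‖s - z i‖) * (1 + |u - s.im|) ^ n0 := by ring
      _ ≤ _ := by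
          refine mul_le_mul_of_nonneg_right (mul_le_mul_of_nonneg_right ?_ ?_) ?_
          · have : 0 ≤ Cz * 2 ^ n0 := by positivity
            linarith
          · positivity
          · positivity

/-- division by the Mellin transform -/
lemma div_step {n n0 : ℕ} {z : Fin n → ℂ} {s : ℂ} {δ N cz CA CZ C3 E I x y : ℝ} (hn : n ≤ n0)
    (hδ : 0 < δ) (hδ1 : δ ≤ 1) (hN : 1 ≤ N) (hcz : 0 < cz) (hCA : 0 ≤ CA) (hCZ : 0 ≤ CZ)
    (hE : 0 ≤ E) (hx : 0 ≤ x)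
    (h1 : x * y ≤ CA * E * (CZ * (δ / N) ^ n0 +
      C3 * ((δ⁻¹ ^ n)⁻¹ * ∏ i, max 1 ‖s - z i‖) * I))
    (h2 : cz * (δ⁻¹ ^ n)⁻¹ * ∏ i, ‖s - z i‖ ≤ y) :
    x * ∏ i, min 1 ‖s - z i‖ ≤ CA * cz⁻¹ * E * (CZ + C3 * I) := by
  have hmax1 : 1 ≤ ∏ i, max 1 ‖s - z i‖ := max_one z s
  obtain ⟨Q, hQ⟩ : ∃ Q : ℝ, Q = (δ⁻¹ ^ n)⁻¹ * ∏ i, max 1 ‖s - z i‖ := ⟨_, rfl⟩
  have hδn : 0 < (δ⁻¹ ^ n)⁻¹ := by positivity
  have hQ0 : 0 < Q := by
    rw [hQ]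
    exact mul_pos hδn (by linarith)
  have hsplit : ∏ i, ‖s - z i‖ = (∏ i, min 1 ‖s - z i‖) * ∏ i, max 1 ‖s - z i‖ := by
    rw [← Finset.prod_mul_distrib]
    refine Finset.prod_congr rfl fun i _ => ?_
    rw [min_mul_max, one_mul]
  have h3 : (δ / N) ^ n0 ≤ Q := by
    have h4 : (δ / N) ^ n0 ≤ δ ^ n0 :=
      pow_le_pow_left₀ (by positivity) (div_le_self hδ.le hN) n0
    have h5 : δ ^ n0 ≤ δ ^ n := pow_le_pow_of_le_one hδ.le hδ1 hn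
    have h6 : (δ⁻¹ ^ n)⁻¹ = δ ^ n := by rw [inv_pow, inv_inv]
    calc (δ / N) ^ n0 ≤ δ ^ n * 1 := by rw [mul_one]; exact h4.trans h5
      _ ≤ Q := by
          rw [hQ, h6]
          exact mul_le_mul_of_nonneg_left hmax1 (by positivity)
  have h7 : x * (cz * (∏ i, min 1 ‖s - z i‖) * Q) ≤ CA * E * ((CZ + C3 * I) * Q) := by
    calc x * (cz * (∏ i, min 1 ‖s - z i‖) * Q) ≤ x * y := by
          refine mul_le_mul_of_nonneg_left ?_ hx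
          refine le_trans (le_of_eq ?_) h2
          rw [hsplit, hQ]
          ring
      _ ≤ _ := h1
      _ ≤ CA * E * ((CZ + C3 * I) * Q) := by
          refine mul_le_mul_of_nonneg_left ?_ (by positivity)
          rw [← hQ, add_mul]
          have h8 : CZ * (δ / N) ^ n0 ≤ CZ * Q := mul_le_mul_of_nonneg_left h3 hCZ
          linarith [h8]
  have h9 : x * (∏ i, min 1 ‖s - z i‖) * (cz * Q) ≤ (CA * E * (CZ + C3 * I)) * Q := by
    calc x * (∏ i, min 1 ‖s - z i‖) * (cz * Q) = x * (cz * (∏ i, min 1 ‖s - z i‖) * Q) := by ring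
      _ ≤ _ := h7
      _ = _ := by ring
  have h10 : x * (∏ i, min 1 ‖s - z i‖) * cz ≤ CA * E * (CZ + C3 * I) := by
    refine le_of_mul_le_mul_right ?_ hQ0
    calc x * (∏ i, min 1 ‖s - z i‖) * cz * Q = x * (∏ i, min 1 ‖s - z i‖) * (cz * Q) := by ring
      _ ≤ _ := h9
  calc x * ∏ i, min 1 ‖s - z i‖ = x * (∏ i, min 1 ‖s - z i‖) * cz * cz⁻¹ := by
        field_simp
    _ ≤ CA * E * (CZ + C3 * I) * cz⁻¹ := mul_le_mul_of_nonneg_right h10 (by positivity)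
    _ = _ := by ring

theorem pf_HYZ (hPRF : T_PRF) (hFR : T_FR1) (hZER : T_ZER) (hTAY : Pool.Agent.H34.GZZ.T_TAY) (hAFZ : T_AFZ)
    (hCIZ : T_CIZ) (hMED : T_MED) (hZPE : T_ZPE)
    (hLMB : Pool.Agent.H23.GB.T_LMB) (hZPB : T_ZPB) (hFEC : T_FEC)
    (hMLZ : T_MLZ) (hENA : T_ENA) (hCNR : T_CNR) (hCFA : T_CFA)
    (hCFB : Pool.Agent.H34.GA.T_CFB) (hSMA : Pool.Agent.H34.GA.T_SMA)
    (hPHB : T_PHB) : T_HYZ := by
  obtain ⟨χ, hχ⟩ := hPRF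
  intro m hm ε hε
  have hmR : (1 : ℝ) ≤ m := by exact_mod_cast hm
  obtain ⟨e, he, he1, heε⟩ : ∃ e : ℝ, 0 < e ∧ e ≤ 1 ∧ (m + 3) * e ≤ ε := by
    refine ⟨min 1 (ε / (m + 3)), lt_min one_pos (by positivity), min_le_left _ _, ?_⟩
    have h1 : min 1 (ε / (m + 3)) ≤ ε / (m + 3) := min_le_right _ _
    calc (m + 3) * min 1 (ε / (m + 3)) ≤ (m + 3) * (ε / (m + 3)) :=
          mul_le_mul_of_nonneg_left h1 (by positivity)
      _ = ε := by field_simp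
  have heε2 : e ≤ ε := by
    have : e ≤ (m + 3) * e := le_mul_of_one_le_left he.le (by linarith)
    linarith
  obtain ⟨B, hB, hLam⟩ := hLMB m hm
  obtain ⟨r0, hr0, hZ0⟩ := hZPB m χ 0 hm hχ
  obtain ⟨CN, hCN, hNR⟩ := hCNR m hm
  obtain ⟨cT, cY, C1, hcT, hcY, hC1, hTA⟩ := hTAY m χ hm hχ CN hCN
  obtain ⟨n0, cz, Cz, hcz, hCz, hZR⟩ := hZER C1 cY hcY
  obtain ⟨K, CA, hCA, hA⟩ := hAFZ m n0 n0 hm r0 B e hr0 hB he he1
  obtain ⟨CI, hCI, hCIr⟩ := hCIZ n0 e he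
  obtain ⟨CZ, hCZ, hZ⟩ := hZPB m χ K hm hχ
  obtain ⟨CP, cP, AP, hCP, hcP, hP⟩ := hPHB χ hχ m hm 1 0 one_pos
  have hCN0 : 0 < CN := by linarith
  have hCZ0 : 0 < CZ := by linarith
  obtain ⟨c, hc, hc64, hcT1⟩ : ∃ c : ℝ, 0 < c ∧ c ≤ 1 / 64 ∧ c * 4 ≤ cT := by
    refine ⟨min (1 / 64) (cT / 4), lt_min (by norm_num) (by positivity), min_le_left _ _, ?_⟩
    have h1 : min (1 / 64) (cT / 4) ≤ cT / 4 := min_le_right _ _
    linarith
  obtain ⟨C3, hC3⟩ : ∃ C3 : ℝ, C3 = Cz * 2 ^ n0 + CZ := ⟨_, rfl⟩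
  have hC30 : 0 < C3 := by
    rw [hC3]
    positivity
  obtain ⟨D1, hD1⟩ : ∃ D1 : ℝ, D1 = CA * ((c⁻¹ ^ m) ^ (1 / 2 : ℝ) * c ^ (-e)) := ⟨_, rfl⟩
  obtain ⟨D2, hD2⟩ : ∃ D2 : ℝ, D2 = CI * (CA * cz⁻¹ * c ^ (-((m + 3) * e)) * (CZ + 16 * C3)) :=
    ⟨_, rfl⟩
  have hD1p : 0 < D1 := by
    rw [hD1]
    positivity
  have hD2p : 0 < D2 := by
    rw [hD2]
    positivity
  refine ⟨D1 + D2, by positivity, ?_⟩
  intro N _ T D hS F lam P hF hn hLip hP1 L hLL t ht X hX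
  have hNZ : NZ F := spx_nz hS (by rw [hn]; exact one_ne_zero)
  have hP0 : 0 < P := by linarith
  have hN1 : (1 : ℝ) ≤ N := by
    have := hS.two_le
    exact_mod_cast (by omega : 1 ≤ N)
  have hN0 : (0 : ℝ) < N := by linarith
  have hNP : 1 ≤ (N : ℝ) * P := by nlinarith
  obtain ⟨H, xv, hFr⟩ := hFR m N hm hS.two_le
  have hc1 : Cof m (c1 D F) 1 := by
    have h1 := hCFA m N T D hS F lam hF.toHecA
    rw [hn] at h1
    exact h1
  have hc2' : Cof m (c2 D H xv F) 1 := by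
    have h1 := hCFB m N T D hS H xv hFr F lam hF.toHecA
    rw [hn] at h1
    exact h1
  have hlam := hLam N T D hS F lam hF.toHecA hNZ
  obtain ⟨δ, hδd⟩ : ∃ δ : ℝ, δ = c / P := ⟨_, rfl⟩
  have hδ0 : 0 < δ := by
    rw [hδd]
    positivity
  have hδP : δ * P = c := by
    rw [hδd]
    field_simp
  have hδc : δ ≤ c := by
    rw [hδd]
    exact div_le_self hc.le hP1
  have hδ64 : δ ≤ 1 / 64 := hδc.trans hc64
  have hδ2 : δ ≤ 1 / 2 := by linarith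
  have hR64 : 64 ≤ δ⁻¹ := by
    rw [le_inv_comm₀ (by norm_num) hδ0]
    linarith
  obtain ⟨hΦ, hΦ0, hΦW, -⟩ := hP δ hδ0 hδ2
  have hZ1 := hZ δ hδ0 hδ2 (c1 D F) hc1
  have hZ2 := hZ δ hδ0 hδ2 (c2 D H xv F) hc2'
  have hZ3 := (hZ0 δ hδ0 hδ2 (c1 D F) hc1).2.2
  have hZK : ∀ K : ℕ, ∃ C : ℝ, ∀ r : ℝ, 0 < r →
      ‖uu (Pool.Agent.H34.GA.cf (dD^[m] (bi m χ δ))) (c2 D H xv F) r‖ ≤ C * min 1 (r ^ K) := by
    intro K'
    obtain ⟨CK, hCK, hK⟩ := hZPB m χ K' hm hχ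
    refine ⟨CK * δ⁻¹ ^ K', fun r hr => ?_⟩
    exact hya_min (by linarith) hr hδ0 (by linarith) ((hK δ hδ0 hδ2 _ hc2').1 r hr)
  -- the centre
  obtain ⟨s0, hs0d⟩ : ∃ s0 : ℂ, s0 = 1 / 2 + t * Complex.I := ⟨_, rfl⟩
  have hs0r : s0.re = 1 / 2 := by
    rw [hs0d]
    simp
  have hs0i : s0.im = t := by
    rw [hs0d]
    simp
  have hs0n : ‖s0‖ ≤ 1 / 2 + P := by
    refine (Complex.norm_le_abs_re_add_abs_im _).trans ?_
    rw [hs0r, hs0i, abs_of_pos (by norm_num : (0 : ℝ) < 1 / 2)]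
    linarith
  have hδT : δ * (1 + P + ‖s0‖) ≤ cT := by
    have h6 : 1 + P + ‖s0‖ ≤ 4 * P := by linarith
    calc δ * (1 + P + ‖s0‖) ≤ δ * (4 * P) := mul_le_mul_of_nonneg_left h6 hδ0.le
      _ = (δ * P) * 4 := by ring
      _ = c * 4 := by rw [hδP]
      _ ≤ cT := hcT1
  obtain ⟨hTa, hTb⟩ := hTA (c1 D F) P s0 δ hc1.meas hc1.bd hP0.le
    (fun w hw => hNR N T D hS F lam hF.toHecA hn P hLip hP0.le w hw) hδ0 hδT
  obtain ⟨Φ, hΦd⟩ : ∃ Φ : Mat m → ℂ, Φ = dD^[m] (bi m χ δ) := ⟨_, rfl⟩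
  rw [← hΦd] at hΦ hΦ0 hΦW hZ1 hZ2 hZK hTa hTb
  have hZ4 : ∀ r : ℝ, 0 < r → uu Φ (c1 D F) r ≠ 0 → r0⁻¹ ≤ r ∧ r ≤ r0 := by
    rw [hΦd]
    exact hZ3
  have hAd : Adm F (Pool.Agent.H34.GA.cf Φ) := Or.inr hΦ0
  have hWc := hSMA m N T D hS F lam hF hNZ Φ hΦ hAd
  obtain ⟨L', hL', hLW'⟩ := hENA m N T D hS F lam hF hNZ
  have hLe : L = L' := isl_uniq hLL hL'
  have hLW : ∀ s : ℂ, LmA m (uu Φ (c1 D F)) lam s = L s * MelA m (uu Φ (c1 D F)) s := by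
    rw [hLe]
    exact hLW' _ hWc
  have hne : ∃ s : ℂ, L s ≠ 0 := isl_ne hLL (lam_one hS hF.toHecA hNZ)
  have hFE := hFEC m N T D hS H xv hFr F lam hF hNZ Φ hΦ hAd
  obtain ⟨-, hcψ, hMel⟩ := hMLZ m hm (c1 D F) 1 hc1 Φ hΦ.toTg
  have hcψ' : ContinuousOn (uu (Pool.Agent.H34.GA.cf Φ) (c2 D H xv F)) (Set.Ioi 0) :=
    (hΦW _ hc2').2.diff.continuousOn
  have hMd : Differentiable ℂ (MelA m (uu Φ (c1 D F))) := hMED m r0 _ hm hr0 hcψ hZ4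
  have hM1 : ∀ t : ℝ, ‖MelA m (uu Φ (c1 D F)) (1 / 2 + t * Complex.I)‖ ≤ CZ := by
    intro t
    rw [hMel]
    exact hZ1.2.1 t
  have hM2 : ∀ t : ℝ, ‖MelA m (uu (Pool.Agent.H34.GA.cf Φ) (c2 D H xv F))
      (1 / 2 + t * Complex.I)‖ = ‖MelA m (uu Φ (c1 D F)) (1 / 2 + t * Complex.I)‖ := by
    intro t
    exact hZPE m N B r0 lam (uu Φ (c1 D F)) (uu (Pool.Agent.H34.GA.cf Φ) (c2 D H xv F)) L hm hN1
      hr0 hcψ hcψ' hZ4 hZK hlam hFE hLL hLW hne t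
  -- the zeros
  obtain ⟨n, z, hnn, -, hup, hlow⟩ := hZR (MelA m (uu Φ (c1 D F))) s0 δ⁻¹ hMd (by positivity)
    (fun s hs => by rw [hMel]; exact hTa s hs)
    (by
      obtain ⟨s1, hs1, hs2⟩ := hTb
      exact ⟨s1, hs1, by rw [hMel]; exact hs2⟩)
  -- the integral
  obtain ⟨g, hgd⟩ : ∃ g : ℝ → ℝ, g = fun u : ℝ => ‖SX lam X (1 / 2 + ((u : ℝ) : ℂ) * Complex.I)‖ :=
    ⟨_, rfl⟩
  have hgc : Continuous g := by
    rw [hgd]
    exact (sx_cont lam X).norm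
  have hg0 : ∀ u, 0 ≤ g u := by
    intro u
    rw [hgd]
    exact norm_nonneg _
  have hgB : ∀ u, |g u| ≤ ∑ n ∈ Finset.Icc 1 X, ‖lam n‖ := by
    intro u
    rw [abs_of_nonneg (hg0 u), hgd]
    exact sx_bd lam X u
  obtain ⟨I, hI⟩ : ∃ I : ℝ, I = ∫ τ : ℝ, ((1 + |τ|) ^ 4)⁻¹ * g (t + τ) := ⟨_, rfl⟩
  have hI0 : 0 ≤ I := by
    rw [hI]
    exact integral_nonneg fun τ => mul_nonneg (by positivity) (hg0 _)
  have hX' : CA * ((N : ℝ) * δ⁻¹ ^ m) ^ (1 / 2 : ℝ) * ((N : ℝ) / δ) ^ e ≤ X := by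
    refine le_trans ?_ hX
    rw [hδd, hya_pow hN0 hP0 hc, hya_pow2 m hN0 hP0 hc]
    have h7 : CA * ((c⁻¹ ^ m) ^ (1 / 2 : ℝ) * ((N : ℝ) * P ^ m) ^ (1 / 2 : ℝ)) *
        (c ^ (-e) * ((N : ℝ) * P) ^ e) =
        D1 * ((N : ℝ) * P ^ m) ^ (1 / 2 : ℝ) * ((N : ℝ) * P) ^ e := by
      rw [hD1]
      ring
    rw [h7]
    refine mul_le_mul (mul_le_mul_of_nonneg_right ?_ ?_)
      (Real.rpow_le_rpow_of_exponent_le hNP heε2) ?_ ?_
    · linarith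
    · positivity
    · positivity
    · positivity
  obtain ⟨E, hE⟩ : ∃ E : ℝ, E = ((N : ℝ) / δ) ^ (((m : ℝ) + 3) * e) := ⟨_, rfl⟩
  have hE0 : 0 < E := by
    rw [hE]
    positivity
  have hEb : E ≤ c ^ (-(((m : ℝ) + 3) * e)) * ((N : ℝ) * P) ^ ε := by
    rw [hE, hδd, hya_pow hN0 hP0 hc]
    exact mul_le_mul_of_nonneg_left (Real.rpow_le_rpow_of_exponent_le hNP heε) (by positivity)
  have hfin := hCIr n L z s0 (CA * cz⁻¹ * E * (CZ + C3 * (16 * I))) hnn hLL.1 (by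
    intro s hs
    have hs1 : ‖s - s0‖ ≤ 1 := hs.trans he1
    have hre : |s.re - 1 / 2| ≤ e := by
      have h1 := Complex.abs_re_le_norm (s - s0)
      rw [Complex.sub_re, hs0r] at h1
      exact h1.trans hs
    have him : |s.im - t| ≤ 1 := by
      have h1 := Complex.abs_im_le_norm (s - s0)
      rw [Complex.sub_im, hs0i] at h1
      exact h1.trans hs1
    have hb1 := mel_far (s := s) (s0 := s0) hnn (by linarith : (1 : ℝ) ≤ δ⁻¹) hCz.le hs1 hs0r hup hM1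
    rw [← hC3] at hb1
    have hM0 : 0 ≤ C3 * ((δ⁻¹ ^ n)⁻¹ * ∏ i, max 1 ‖s - z i‖) := by
      have := max_one z s
      positivity
    have h1 := hA N δ CZ (C3 * ((δ⁻¹ ^ n)⁻¹ * ∏ i, max 1 ‖s - z i‖)) lam (uu Φ (c1 D F))
      (uu (Pool.Agent.H34.GA.cf Φ) (c2 D H xv F)) hN1 hδ0 hδ2 hCZ0.le hM0 hcψ hcψ' hZ4 hZ2.1
      hlam hFE s.im (s.re - 1 / 2) hre hb1 (fun u => by rw [hM2 u]; exact hb1 u) X hX'
    have hss : (((1 / 2 + (s.re - 1 / 2) : ℝ) : ℂ) + (s.im : ℂ) * Complex.I) = s := by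
      rw [add_sub_cancel]
      exact Complex.re_add_im s
    rw [hss, hLW, norm_mul, ← hE] at h1
    have h2 := hlow s (by linarith)
    have h3 : ∫ τ : ℝ, ((1 + |τ|) ^ 4)⁻¹ *
        ‖SX lam X (1 / 2 + ((s.im + τ : ℝ) : ℂ) * Complex.I)‖ ≤ 16 * I := by
      have h4 := ker_shift g hgc hg0 _ hgB t s.im him
      rw [← hI] at h4
      refine le_trans (le_of_eq ?_) h4
      rw [hgd]
    have h5 : CA * E * (CZ * (δ / N) ^ n0 + C3 * ((δ⁻¹ ^ n)⁻¹ * ∏ i, max 1 ‖s - z i‖) *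
        ∫ τ : ℝ, ((1 + |τ|) ^ 4)⁻¹ * ‖SX lam X (1 / 2 + ((s.im + τ : ℝ) : ℂ) * Complex.I)‖) ≤
        CA * E * (CZ * (δ / N) ^ n0 + C3 * ((δ⁻¹ ^ n)⁻¹ * ∏ i, max 1 ‖s - z i‖) * (16 * I)) := by
      refine mul_le_mul_of_nonneg_left ?_ (by positivity)
      have := mul_le_mul_of_nonneg_left h3 hM0
      linarith
    exact div_step hnn hδ0 (by linarith) hN1 hcz hCA.le hCZ0.le hE0.le (norm_nonneg _)
      (h1.trans h5) h2)
  rw [← hs0d]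
  have hIe : I = ∫ τ : ℝ, ((1 + |τ|) ^ 4)⁻¹ *
      ‖SX lam X (1 / 2 + ((t + τ : ℝ) : ℂ) * Complex.I)‖ := by
    rw [hI, hgd]
  rw [← hIe]
  refine hfin.trans ?_
  have h8 : CZ + C3 * (16 * I) ≤ (CZ + 16 * C3) * (1 + I) := by
    have h81 : 0 ≤ CZ * I := by positivity
    have h82 : 0 ≤ C3 * I := by positivity
    linarith [h81, h82, hC30.le]
  calc CI * (CA * cz⁻¹ * E * (CZ + C3 * (16 * I)))
      ≤ CI * (CA * cz⁻¹ * (c ^ (-(((m : ℝ) + 3) * e)) * ((N : ℝ) * P) ^ ε) *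
        ((CZ + 16 * C3) * (1 + I))) := by
        refine mul_le_mul_of_nonneg_left ?_ hCI.le
        refine mul_le_mul ?_ h8 (by positivity) (by positivity)
        exact mul_le_mul_of_nonneg_left hEb (by positivity)
    _ = D2 * ((N : ℝ) * P) ^ ε * (1 + I) := by
        rw [hD2]
        ring
    _ ≤ _ := by
        refine mul_le_mul_of_nonneg_right (mul_le_mul_of_nonneg_right ?_ ?_) ?_
        · linarith
        · positivity
        · linarith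

end Pool.Agent.H84.GZZ
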